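import Pool.Agent.Helper52.ES.Spec2
import Pool.Agent.Helper62.PspPoly

set_option autoImplicit false

/-! # (BN) arithmetic with binary numbers in polynomial time -/

namespace Pool.Agent.Helper52.ES

open Pool.Agent.Helper58 Function
open Pool.Agent.Helper62.Psp

namespace BN

/-- trimming gives the binary digits of the value -/
theorem trim_eq (l : List Bool) : trim l = (bval l).bits := by
  induction l with
  | nil => rfl
  | cons b l ih =>
    rw [trim_cons, ih, bval]
    by_cases h0 : bval l = 0
    · rw [h0]
      cases b
      · rfl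
      · simp [tstep, Helper58.lcase]
    · have h1 : b.toNat + 2 * bval l = Nat.bit b (bval l) := by
        rw [Nat.bit_val]
        ring
      rw [h1, Nat.bits_append_bit _ _ (fun h => absurd h h0)]
      have h2 : (bval l).bits ≠ [] := by
        intro h3
        apply h0
        have := bval_bits (bval l)
        rw [h3] at this
        exact this.symm
      obtain ⟨a, m, hm⟩ := List.exists_cons_of_ne_nil h2
      rw [hm]
      rfl

theorem addB_eq (l m : List Bool) : addB l m = (bval l + bval m).bits := by
  have h := bval_addB l m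
  unfold addB at h ⊢
  rw [bval_trim] at h
  rw [trim_eq, h]

/-- a function with a digit list computable in polynomial time -/
theorem pbin_of {γ : Type} [Enc γ] {f : γ → ℕ} (l : γ → List Bool) (hl : PTf l)
    (h : ∀ x, bval (l x) = f x) : PBin f := by
  refine (wr_nat_bits f).2 ((ptf_trim hl).congr (fun x => ?_))
  rw [trim_eq, h]

theorem size_le_self (n : ℕ) : n.size ≤ n := Nat.size_le.2 Nat.lt_two_pow_self

theorem sz_bits (n : ℕ) : sz n.bits ≤ 4 * n.size + 1 := by
  have := sz_bits_le n.bits
  rwa [← Nat.size_eq_bits_len]

/-! ### unary to binary -/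

/-- adding one -/
def inc (acc : List Bool) (_ : Unit) : List Bool := addB acc [true]

theorem foldl_one (n : ℕ) (a : ℕ) :
    (List.replicate n ()).foldl inc a.bits = (a + n).bits := by
  induction n generalizing a with
  | zero => rfl
  | succ n ih =>
    rw [List.replicate_succ, List.foldl_cons, inc, addB_eq, bval_bits]
    have h : bval [true] = 1 := rfl
    rw [h, ih]
    congr 1
    ring

theorem un (γ : Type) [Enc γ] (f : γ → ℕ) (hf : PTf f) : PBin f := by
  refine (wr_nat_bits f).2 ?_
  have h : PTf (fun x => (List.replicate (f x) ()).foldl inc []) := by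
    refine PTf.foldl (step := fun _ => inc) (B := fun x => 4 * sz (f x) + 1)
      (by fun_prop) (by fun_prop) (by unfold inc; fun_prop)
      (((PB.const 4).mul hf.sz_le).add (PB.const 1)) ?_
    intro x i
    rw [List.take_replicate]
    have h0 : ([] : List Bool) = (0 : ℕ).bits := rfl
    rw [h0, foldl_one, Nat.zero_add]
    refine (sz_bits _).trans ?_
    have h1 := size_le_self (min i (f x))
    have h2 : min i (f x) ≤ f x := min_le_right _ _
    have h3 := sz_nat (f x)
    omega
  refine h.congr (fun x => ?_)
  have h0 : ([] : List Bool) = (0 : ℕ).bits := rfl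
  rw [h0, foldl_one, Nat.zero_add]

theorem two (γ : Type) [Enc γ] (f : γ → ℕ) (hf : PTf f) : PBin (fun x => 2 ^ f x) := by
  refine pbin_of (fun x => List.replicate (f x) false ++ [true]) (by fun_prop) (fun x => ?_)
  rw [bval_append, bval_zeros, List.length_replicate]
  simp [bval]

theorem add (γ : Type) [Enc γ] (f g : γ → ℕ) (hf : PBin f) (hg : PBin g) :
    PBin (fun x => f x + g x) := by
  have hf' := (wr_nat_bits f).1 hf
  have hg' := (wr_nat_bits g).1 hg
  refine pbin_of (fun x => addB (f x).bits (g x).bits) (by fun_prop) (fun x => ?_)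
  rw [bval_addB, bval_bits, bval_bits]

theorem mul (γ : Type) [Enc γ] (f g : γ → ℕ) (hf : PBin f) (hg : PBin g) :
    PBin (fun x => f x * g x) := by
  have hf' := (wr_nat_bits f).1 hf
  have hg' := (wr_nat_bits g).1 hg
  refine pbin_of (fun x => mulB (f x).bits (g x).bits) (by fun_prop) (fun x => ?_)
  rw [bval_mulB, bval_bits, bval_bits]

/-! ### subtraction -/

theorem bval_not (l : List Bool) : bval (l.map (fun b => !b)) + bval l + 1 = 2 ^ l.length := by
  induction l with
  | nil => rfl
  | cons b l ih =>
    rw [List.map_cons, bval, bval, List.length_cons, pow_succ, ← ih]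
    cases b <;> simp <;> ring

theorem bval_take (l : List Bool) (n : ℕ) : bval (l.take n) = bval l % 2 ^ n := by
  induction l generalizing n with
  | nil => simp [bval]
  | cons b l ih =>
    cases n with
    | zero => simp [bval, Nat.mod_one]
    | succ n =>
      rw [List.take_succ_cons, bval, bval, ih, pow_succ]
      have h1 := Nat.div_add_mod (bval l) (2 ^ n)
      have h2 : bval l % 2 ^ n < 2 ^ n := Nat.mod_lt _ (Nat.pow_pos (by norm_num))
      have h3 : b.toNat ≤ 1 := Bool.toNat_le b
      have h4 : b.toNat + 2 * bval l =
          b.toNat + 2 * (bval l % 2 ^ n) + (2 ^ n * 2) * (bval l / 2 ^ n) := by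
        nlinarith [h1]
      have h5 : b.toNat + 2 * (bval l % 2 ^ n) < 2 ^ n * 2 := by omega
      rw [h4, Nat.add_mul_mod_self_left, Nat.mod_eq_of_lt h5]

/-- subtraction of digit lists -/
def subB (l m : List Bool) : List Bool :=
  bif leB m l then
    (addB (addB l ((m ++ List.replicate l.length false).map (fun b => !b))) [true]).take
      (m ++ List.replicate l.length false).length
  else []

theorem bval_subB (l m : List Bool) : bval (subB l m) = bval l - bval m := by
  unfold subB
  by_cases h : bval m ≤ bval l
  · rw [(leB_iff m l).2 h, cond_true, bval_take, bval_addB, bval_addB]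
    have h1 := bval_not (m ++ List.replicate l.length false)
    have h2 : bval (m ++ List.replicate l.length false) = bval m := by
      rw [bval_append, bval_zeros, Nat.mul_zero, Nat.add_zero]
    rw [h2] at h1
    have h3 : bval [true] = 1 := rfl
    rw [h3]
    have h4 : (m ++ List.replicate l.length false).length = m.length + l.length := by simp
    rw [h4] at h1 ⊢
    have h5 : bval l < 2 ^ (m.length + l.length) := by
      refine (bval_lt l).trans_le (Nat.pow_le_pow_right (by norm_num) (by omega))
    have h6 : bval l + bval ((m ++ List.replicate l.length false).map (fun b => !b)) + 1 =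
        (bval l - bval m) + 2 ^ (m.length + l.length) := by omega
    rw [h6, Nat.add_mod_right, Nat.mod_eq_of_lt]
    omega
  · have h1 : leB m l = false := by
      by_contra hc
      rw [Bool.not_eq_false] at hc
      exact h ((leB_iff m l).1 hc)
    rw [h1, cond_false, bval]
    omega

@[fun_prop] theorem ptf_subB {γ : Type} [Enc γ] {l m : γ → List Bool} (hl : PTf l) (hm : PTf m) :
    PTf (fun x => subB (l x) (m x)) := by
  unfold subB
  fun_prop

theorem sub (γ : Type) [Enc γ] (f g : γ → ℕ) (hf : PBin f) (hg : PBin g) :
    PBin (fun x => f x - g x) := by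
  have hf' := (wr_nat_bits f).1 hf
  have hg' := (wr_nat_bits g).1 hg
  refine pbin_of (fun x => subB (f x).bits (g x).bits) (by fun_prop) (fun x => ?_)
  rw [bval_subB, bval_bits, bval_bits]

theorem half (γ : Type) [Enc γ] (f : γ → ℕ) (hf : PBin f) : PBin (fun x => f x / 2) := by
  have hf' := (wr_nat_bits f).1 hf
  refine pbin_of (fun x => (f x).bits.tail) (by fun_prop) (fun x => ?_)
  have key : ∀ l : List Bool, bval l.tail = bval l / 2 := by
    intro l
    cases l with
    | nil => rfl
    | cons b l =>
      rw [List.tail_cons, bval]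
      have h3 : b.toNat ≤ 1 := Bool.toNat_le b
      omega
  rw [key, bval_bits]

theorem size (γ : Type) [Enc γ] (f : γ → ℕ) (hf : PBin f) : PTf (fun x => Nat.size (f x)) := by
  have hf' := (wr_nat_bits f).1 hf
  have h : PTf (fun x => (f x).bits.length) := by fun_prop
  exact h.congr (fun x => (Nat.size_eq_bits_len _).symm)

theorem le (γ : Type) [Enc γ] (f g : γ → ℕ) (hf : PBin f) (hg : PBin g) :
    PTf (fun x => decide (f x ≤ g x)) := by
  have hf' := (wr_nat_bits f).1 hf
  have hg' := (wr_nat_bits g).1 hg
  have h : PTf (fun x => leB (f x).bits (g x).bits) := by fun_prop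
  refine h.congr (fun x => ?_)
  rw [Bool.eq_iff_iff, decide_eq_true_iff, leB_iff, bval_bits, bval_bits]

/-! ### sums -/

theorem sz_wr (a : Wr ℕ) : sz a = sz a.val.bits := by
  have h : enc a = enc a.val.bits := Helper99.ETSP.conv_nat a.val
  unfold sz
  rw [h]

theorem foldl_sum (l : List (Wr ℕ)) (a : ℕ) :
    l.foldl (fun acc w => addB acc w.val.bits) a.bits = (a + (l.map Wr.val).sum).bits := by
  induction l generalizing a with
  | nil => rfl
  | cons w l ih =>
    rw [List.foldl_cons, addB_eq, bval_bits, bval_bits, ih, List.map_cons, List.sum_cons]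
    congr 1
    ring

theorem length_foldl_sum (l : List (Wr ℕ)) (acc : List Bool) :
    (l.foldl (fun acc w => addB acc w.val.bits) acc).length ≤ acc.length + sz l := by
  induction l generalizing acc with
  | nil => simp
  | cons w l ih =>
    rw [List.foldl_cons, sz_lcons]
    have h1 := ih (addB acc w.val.bits)
    have h2 := length_addB acc w.val.bits (acc.length + w.val.bits.length) (by omega) (by omega)
    have h3 := length_le_sz w.val.bits
    rw [← sz_wr] at h3
    omega

theorem sum (γ : Type) [Enc γ] (l : γ → List (Wr ℕ)) (hl : PTf l) :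
    PBin (fun x => ((l x).map Wr.val).sum) := by
  refine (wr_nat_bits _).2 ?_
  have h : PTf (fun x => (l x).foldl
      (fun (acc : List Bool) (w : Wr ℕ) => addB acc w.val.bits) []) := by
    refine PTf.foldl (step := fun _ (acc : List Bool) (w : Wr ℕ) => addB acc w.val.bits)
      (B := fun x => 4 * sz (l x) + 1) hl (by fun_prop) ?_
      (((PB.const 4).mul hl.sz_le).add (PB.const 1)) ?_
    · have h1 : PTf (fun p : γ × (List Bool × Wr ℕ) => p.2.2.val.bits) :=
        (wr_nat_bits (fun p : γ × (List Bool × Wr ℕ) => p.2.2.val)).1 (by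
          have : PTf (fun p : γ × (List Bool × Wr ℕ) => p.2.2) := by fun_prop
          exact this)
      fun_prop
    · intro x i
      have h1 := length_foldl_sum ((l x).take i) []
      have h2 := sz_bits_le
        (((l x).take i).foldl (fun (acc : List Bool) (w : Wr ℕ) => addB acc w.val.bits) [])
      have h3 := sz_take_le (l x) i
      simp only [List.length_nil] at h1
      omega
  refine h.congr (fun x => ?_)
  have h0 : ([] : List Bool) = (0 : ℕ).bits := rfl
  rw [h0, foldl_sum, Nat.zero_add]

/-! ### the square root -/

/-- one step of the computation of the square root of `n`: digit number `j` -/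
def sstep (n a j : ℕ) : ℕ := if (a + 2 ^ j) * (a + 2 ^ j) ≤ n then a + 2 ^ j else a

theorem sstep_foldl (n : ℕ) (L : ℕ) : ∀ a, a * a ≤ n → n < (a + 2 ^ L) * (a + 2 ^ L) →
    (List.range L).reverse.foldl (sstep n) a = Nat.sqrt n := by
  induction L with
  | zero =>
    intro a h1 h2
    rw [pow_zero] at h2
    exact (Nat.eq_sqrt.2 ⟨h1, h2⟩)
  | succ L ih =>
    intro a h1 h2
    rw [List.range_succ, List.reverse_append, List.reverse_singleton, List.singleton_append,
      List.foldl_cons]
    unfold sstep
    split_ifs with h
    · refine ih _ h ?_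
      rw [pow_succ] at h2
      have h3 : a + 2 ^ L + 2 ^ L = a + 2 ^ L * 2 := by ring
      rw [h3]
      exact h2
    · exact ih _ h1 (by omega)

theorem sstep_le (n : ℕ) (l : List ℕ) : ∀ a, a * a ≤ n → l.foldl (sstep n) a * l.foldl (sstep n) a ≤ n := by
  induction l with
  | nil => intro a h; exact h
  | cons j l ih =>
    intro a h
    rw [List.foldl_cons]
    apply ih
    unfold sstep
    split_ifs with h1
    · exact h1
    · exact h

/-- the same step on digits -/
def sstepB (n : List Bool) (acc : List Bool) (j : ℕ) : List Bool :=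
  bif leB (mulB (addB acc (List.replicate j false ++ [true]))
      (addB acc (List.replicate j false ++ [true]))) n
    then addB acc (List.replicate j false ++ [true]) else acc

theorem sstepB_eq (n a j : ℕ) : sstepB n.bits a.bits j = (sstep n a j).bits := by
  have h1 : addB a.bits (List.replicate j false ++ [true]) = (a + 2 ^ j).bits := by
    rw [addB_eq, bval_bits, bval_append, bval_zeros, List.length_replicate]
    simp [bval]
  unfold sstepB sstep
  rw [h1]
  by_cases h : (a + 2 ^ j) * (a + 2 ^ j) ≤ n
  · have h2 : leB (mulB (a + 2 ^ j).bits (a + 2 ^ j).bits) n.bits = true := by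
      rw [leB_iff, bval_mulB, bval_bits, bval_bits]
      exact h
    rw [h2, cond_true, if_pos h]
  · have h2 : leB (mulB (a + 2 ^ j).bits (a + 2 ^ j).bits) n.bits = false := by
      by_contra hc
      rw [Bool.not_eq_false, leB_iff, bval_mulB, bval_bits, bval_bits] at hc
      exact h hc
    rw [h2, cond_false, if_neg h]

theorem foldl_sstepB (n : ℕ) (l : List ℕ) : ∀ a : ℕ,
    l.foldl (sstepB n.bits) a.bits = (l.foldl (sstep n) a).bits := by
  induction l with
  | nil => intro a; rfl
  | cons j l ih =>
    intro a
    rw [List.foldl_cons, List.foldl_cons, sstepB_eq, ih]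

theorem sqrt (γ : Type) [Enc γ] (f : γ → ℕ) (hf : PBin f) : PBin (fun x => Nat.sqrt (f x)) := by
  have hf' := (wr_nat_bits f).1 hf
  have hs : PTf (fun x => Nat.size (f x)) := size γ f hf
  refine (wr_nat_bits _).2 ?_
  have h : PTf (fun x => (List.range (Nat.size (f x))).reverse.foldl (sstepB (f x).bits) []) := by
    refine PTf.foldl (step := fun x => sstepB (f x).bits)
      (B := fun x => 4 * sz (f x).bits + 1) (by fun_prop) (by fun_prop) ?_
      (((PB.const 4).mul hf'.sz_le).add (PB.const 1)) ?_
    · have h1 : PTf (fun p : γ × (List Bool × ℕ) => (f p.1).bits) :=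
        PTf.comp (f := fun p : γ × (List Bool × ℕ) => p.1) (g := fun x => (f x).bits) hf'
          (by fun_prop)
      unfold sstepB
      fun_prop
    · intro x i
      have h0 : ([] : List Bool) = (0 : ℕ).bits := rfl
      rw [h0, foldl_sstepB]
      refine (sz_bits _).trans ?_
      have h1 := sstep_le (f x) ((List.range (Nat.size (f x))).reverse.take i) 0 (Nat.zero_le _)
      generalize ((List.range (Nat.size (f x))).reverse.take i).foldl (sstep (f x)) 0 = s at h1 ⊢
      have h2 : s ≤ f x := (Nat.le_mul_self s).trans h1
      have h3 : s.size ≤ (f x).size := Nat.size_le_size h2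
      have h4 := length_le_sz (f x).bits
      rw [Nat.size_eq_bits_len] at h4
      omega
  refine h.congr (fun x => ?_)
  have h0 : ([] : List Bool) = (0 : ℕ).bits := rfl
  rw [h0, foldl_sstepB, sstep_foldl _ _ 0 (Nat.zero_le _)]
  rw [Nat.zero_add]
  have h1 : f x < 2 ^ (f x).size := Nat.lt_size_self _
  have h2 : 0 < 2 ^ (f x).size := Nat.pow_pos (by norm_num)
  nlinarith

end BN

theorem bn : specBN :=
  ⟨BN.un, BN.two, BN.add, BN.sub, BN.mul, BN.half, BN.sqrt, BN.size, BN.le, BN.sum⟩

end Pool.Agent.Helper52.ES
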